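import Mathlib
import Pool.Agent.X317.CF.Cc

/-!
# MP_66ab92_lc: variants of cofin for Borel sigma-ideals, part (c)
-/

set_option autoImplicit false
set_option linter.all false

namespace Pool.Agent.Results.MP_66ab92_lc.CountableSets

open Pool.Agent.X317.CF

/-- For some Borel sigma-ideal with all singletons, `cofin < cofin⁺`. -/
theorem result : ∃ I : Set (Set C2), IsBorelSigma I ∧ (∀ x, {x} ∈ I) ∧ Set.univ ∉ I ∧
    cofin I < cofinPlus I := by
  have h3 : Cardinal.mk C2 = Cardinal.continuum := by simp [C2]
  refine ⟨CT, CT_borel, fun x => Set.countable_singleton x, ?_, ?_⟩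
  · intro h
    have h' : (Set.univ : Set C2).Countable := h
    rw [Set.countable_univ_iff] at h'
    have h2 : Cardinal.mk C2 ≤ Cardinal.aleph0 := Cardinal.mk_le_aleph0_iff.2 h'
    rw [h3] at h2
    exact absurd Cardinal.aleph0_lt_continuum (not_lt.2 h2)
  · rw [CT_plus]
    exact lt_of_le_of_lt CT_le (WithTop.coe_lt_top _)

end Pool.Agent.Results.MP_66ab92_lc.CountableSets
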