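import Mathlib
import Pool.Agent.X317.CF.Bb

/-!
# MP_66ab92_lc: variants of cofin for Borel sigma-ideals, part (a)
-/

set_option autoImplicit false
set_option linter.all false

namespace Pool.Agent.Results.MP_66ab92_lc.NonDominating

open Pool.Agent.X317.CF

/-- Some Borel sigma-ideal has `cofin* ≤ 𝔟` and `𝔤 ≤ cofin⁻`, hence `cofin* < cofin⁻` when
`𝔟 < 𝔤`. -/
theorem result : ∃ I : Set (Set C2), IsBorelSigma I ∧ (∀ x, {x} ∈ I) ∧ Set.univ ∉ I ∧
    cofinStar I ≤ (bb.ord : Ordinal.{0}) ∧ (gg.ord : Ordinal.{0}) ≤ cofinMinus I ∧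
    (bb < gg → cofinStar I < cofinMinus I) := by
  refine ⟨ND, ND_borel, ND_singleton, ND_proper, star_le, minus_ge, fun h => ?_⟩
  refine lt_of_le_of_lt star_le (lt_of_lt_of_le ?_ minus_ge)
  exact WithTop.coe_lt_coe.2 (Cardinal.ord_lt_ord.2 h)

end Pool.Agent.Results.MP_66ab92_lc.NonDominating
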